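import Mathlib

namespace Pool.Agent.MP_99eff6_co

/-- A family `F` of subsets of `[n]` contains an induced copy of the poset `P`:
an injective map `f : P → F` with `p ≤ q ↔ f p ⊆ f q`. -/
def ContainsInducedCopy (P : Type) [PartialOrder P] {n : ℕ} (F : Finset (Finset (Fin n))) : Prop :=
  ∃ f : P → Finset (Fin n), Function.Injective f ∧ (∀ p, f p ∈ F) ∧ ∀ p q, p ≤ q ↔ f p ⊆ f q

/-- `F` is diamond-saturated. The diamond is the Boolean lattice `Q₂`, realised as
`Bool × Bool` with the product order. -/
def DiamondSaturated {n : ℕ} (F : Finset (Finset (Fin n))) : Prop :=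
  ¬ ContainsInducedCopy (Bool × Bool) F ∧
    ∀ S : Finset (Fin n), S ∉ F → ContainsInducedCopy (Bool × Bool) (insert S F)

end Pool.Agent.MP_99eff6_co
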